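import Mathlib
import Pool.Agent.W710.DP.Stm1

/-! DESC: second order Taylor estimate of the functional -/

set_option autoImplicit false

namespace Pool.Agent.W407.DP

open Pool.Agent.W710.DP

lemma taylor1 (f f' : ℝ → ℝ) (hf : ∀ y, HasDerivAt f (f' y) y) (a b c B : ℝ)
    (h : ∀ y ∈ Set.uIcc a b, |f' y - c| ≤ B) : |f b - f a - c * (b - a)| ≤ B * |b - a| := by
  have h1 := Convex.norm_image_sub_le_of_norm_hasDerivWithin_le (f := fun y => f y - c * y)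
    (f' := fun y => f' y - c) (C := B) (s := Set.uIcc a b) (x := a) (y := b)
    (fun y _ => by
      have h2 := (hf y).sub ((hasDerivAt_id y).const_mul c)
      rw [mul_one] at h2
      exact h2.hasDerivWithinAt)
    (fun y hy => h y hy) (convex_uIcc a b) Set.left_mem_uIcc Set.right_mem_uIcc
  simp only [Real.norm_eq_abs] at h1
  have e : f b - f a - c * (b - a) = f b - c * b - (f a - c * a) := by ring
  rw [e]
  exact h1

/-- first order expansion of a letter -/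
lemma letter {T e : ℝ} {l : Letter} (hl : Good T e l) : ∃ C : ℝ, 0 ≤ C ∧ ∀ x s x' s' : ℝ,
    -(l.G x' s') ≤ -(l.G x s) - l.gx x s * (x' - x) - l.gs x s * (s' - s) +
      C * ((x' - x) ^ 2 + (s' - s) ^ 2) := by
  obtain ⟨K, hK, hlip⟩ := hl.lip
  refine ⟨2 * K, by positivity, fun x s x' s' => ?_⟩
  have h1 : |l.G x' s - l.G x s - l.gx x s * (x' - x)| ≤ K * |x' - x| * |x' - x| := by
    refine taylor1 (fun y => l.G y s) (fun y => l.gx y s) (fun y => hl.dx y s) x x' _ _ ?_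
    intro y hy
    refine (hlip y s x s).1.trans ?_
    rw [sub_self, abs_zero, add_zero]
    refine mul_le_mul_of_nonneg_left ?_ hK
    exact Set.abs_sub_left_of_mem_uIcc hy
  have h2 : |l.G x' s' - l.G x' s - l.gs x s * (s' - s)| ≤
      K * (|x' - x| + |s' - s|) * |s' - s| := by
    refine taylor1 (fun y => l.G x' y) (fun y => l.gs x' y) (fun y => hl.ds x' y) s s' _ _ ?_
    intro y hy
    refine (hlip x' y x s).2.trans ?_
    refine mul_le_mul_of_nonneg_left ?_ hK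
    have := Set.abs_sub_left_of_mem_uIcc hy
    linarith
  have h3 := (abs_le.1 h1).1
  have h4 := (abs_le.1 h2).1
  have e1 : |x' - x| * |x' - x| = (x' - x) ^ 2 := by rw [← sq, sq_abs]
  have e2 : |s' - s| * |s' - s| = (s' - s) ^ 2 := by rw [← sq, sq_abs]
  have h5 : |x' - x| * |s' - s| ≤ ((x' - x) ^ 2 + (s' - s) ^ 2) / 2 := by
    nlinarith [sq_nonneg (|x' - x| - |s' - s|), sq_abs (x' - x), sq_abs (s' - s)]
  have h6 : K * |x' - x| * |x' - x| = K * (x' - x) ^ 2 := by rw [mul_assoc, e1]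
  have h7 : K * (|x' - x| + |s' - s|) * |s' - s| ≤
      K * (((x' - x) ^ 2 + (s' - s) ^ 2) / 2 + (s' - s) ^ 2) := by
    have : K * (|x' - x| + |s' - s|) * |s' - s| = K * (|x' - x| * |s' - s| + (s' - s) ^ 2) := by
      rw [← e2]; ring
    rw [this]
    exact mul_le_mul_of_nonneg_left (by linarith) hK
  have h8 : 0 ≤ K * (x' - x) ^ 2 := by positivity
  have h9 : 0 ≤ K * (s' - s) ^ 2 := by positivity
  nlinarith

/-- the gradient with incoming value `σ` -/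
def gX (b σ : ℝ) (w : List Letter) (ζ : Cfg) (i : ℕ) : ℝ :=
  if i < w.length then (if i = 0 then σ else ζ.2 (i - 1)) - ζ.2 i - (lt w i).gx (ζ.1 i) (ζ.2 i)
  else (if i = 0 then σ else ζ.2 (i - 1)) - b

lemma gX_b (b : ℝ) (w : List Letter) (ζ : Cfg) (i : ℕ) : gX b b w ζ i = gradX b w ζ i := rfl

lemma gX_succ (b σ : ℝ) (l : Letter) (w : List Letter) (ζ : Cfg) (i : ℕ) :
    gX b σ (l :: w) ζ (i + 1) = gX b (ζ.2 0) w (shc 1 ζ) i := by
  have h1 : (if i + 1 = 0 then σ else ζ.2 (i + 1 - 1)) =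
      (if i = 0 then ζ.2 0 else (shc 1 ζ).2 (i - 1)) := by
    rw [if_neg (Nat.succ_ne_zero i)]
    by_cases h : i = 0
    · subst h; simp
    · obtain ⟨k, rfl⟩ := Nat.exists_eq_succ_of_ne_zero h
      rw [if_neg h]
      rfl
  unfold gX
  rw [h1]
  simp only [List.length_cons, add_lt_add_iff_right]
  rfl

lemma gX_zero (b σ : ℝ) (l : Letter) (w : List Letter) (ζ : Cfg) :
    gX b σ (l :: w) ζ 0 = σ - ζ.2 0 - l.gx (ζ.1 0) (ζ.2 0) := by
  unfold gX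
  rw [if_pos (by simp), if_pos rfl]
  rfl

lemma gradS_succ (l : Letter) (w : List Letter) (ζ : Cfg) (i : ℕ) :
    gradS (l :: w) ζ (i + 1) = gradS w (shc 1 ζ) i := rfl

lemma gradS_zero (l : Letter) (w : List Letter) (ζ : Cfg) :
    gradS (l :: w) ζ 0 = ζ.1 1 - ζ.1 0 - l.gs (ζ.1 0) (ζ.2 0) := rfl

theorem gen (b T e : ℝ) (w : List Letter) (hw : GoodW T e w) :
    ∃ C : ℝ, 0 < C ∧ ∀ (σ : ℝ) (ζ η : Cfg), (σ - b) * η.1 0 + Sw b w η ≤
    (σ - b) * ζ.1 0 + Sw b w ζ +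
    ∑ i ∈ Finset.range (w.length + 1), gX b σ w ζ i * (η.1 i - ζ.1 i) +
    ∑ i ∈ Finset.range w.length, gradS w ζ i * (η.2 i - ζ.2 i) +
    C * (∑ i ∈ Finset.range (w.length + 1), (η.1 i - ζ.1 i) ^ 2 +
      ∑ i ∈ Finset.range w.length, (η.2 i - ζ.2 i) ^ 2) := by
  induction w with
  | nil =>
    refine ⟨1, one_pos, fun σ ζ η => ?_⟩
    simp only [Sw, List.length_nil, zero_add, Finset.range_one, Finset.sum_singleton,
      Finset.range_zero, Finset.sum_empty, gX, lt_irrefl, if_false, if_true]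
    nlinarith [sq_nonneg (η.1 0 - ζ.1 0)]
  | cons l w ih =>
    obtain ⟨C, hC, hI⟩ := ih (fun l' hl' => hw l' (List.mem_cons_of_mem _ hl'))
    obtain ⟨c, hc, hL⟩ := letter (hw l List.mem_cons_self)
    refine ⟨C + c + 1, by positivity, fun σ ζ η => ?_⟩
    have h1 := hI (ζ.2 0) (shc 1 ζ) (shc 1 η)
    have h2 := hL (ζ.1 0) (ζ.2 0) (η.1 0) (η.2 0)
    have s1 : ∑ i ∈ Finset.range (w.length + 1 + 1), gX b σ (l :: w) ζ i * (η.1 i - ζ.1 i) =
        ∑ i ∈ Finset.range (w.length + 1),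
          gX b (ζ.2 0) w (shc 1 ζ) i * (η.1 (i + 1) - ζ.1 (i + 1)) +
        (σ - ζ.2 0 - l.gx (ζ.1 0) (ζ.2 0)) * (η.1 0 - ζ.1 0) := by
      rw [Finset.sum_range_succ']
      simp only [gX_succ, gX_zero]
    have s2 : ∑ i ∈ Finset.range (w.length + 1), gradS (l :: w) ζ i * (η.2 i - ζ.2 i) =
        ∑ i ∈ Finset.range w.length, gradS w (shc 1 ζ) i * (η.2 (i + 1) - ζ.2 (i + 1)) +
        (ζ.1 1 - ζ.1 0 - l.gs (ζ.1 0) (ζ.2 0)) * (η.2 0 - ζ.2 0) := by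
      rw [Finset.sum_range_succ']
      simp only [gradS_succ, gradS_zero]
    have s3 : ∑ i ∈ Finset.range (w.length + 1 + 1), (η.1 i - ζ.1 i) ^ 2 =
        ∑ i ∈ Finset.range (w.length + 1), (η.1 (i + 1) - ζ.1 (i + 1)) ^ 2 +
        (η.1 0 - ζ.1 0) ^ 2 := Finset.sum_range_succ' _ _
    have s4 : ∑ i ∈ Finset.range (w.length + 1), (η.2 i - ζ.2 i) ^ 2 =
        ∑ i ∈ Finset.range w.length, (η.2 (i + 1) - ζ.2 (i + 1)) ^ 2 +
        (η.2 0 - ζ.2 0) ^ 2 := Finset.sum_range_succ' _ _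
    rw [List.length_cons, s1, s2, s3, s4]
    simp only [Sw]
    have e1 : ∀ i, (shc 1 η).1 i = η.1 (i + 1) := fun i => rfl
    have e2 : ∀ i, (shc 1 ζ).1 i = ζ.1 (i + 1) := fun i => rfl
    have e3 : ∀ i, (shc 1 η).2 i = η.2 (i + 1) := fun i => rfl
    have e4 : ∀ i, (shc 1 ζ).2 i = ζ.2 (i + 1) := fun i => rfl
    simp only [e1, e2, e3, e4, zero_add] at h1
    set A1 := ∑ i ∈ Finset.range (w.length + 1),
      gX b (ζ.2 0) w (shc 1 ζ) i * (η.1 (i + 1) - ζ.1 (i + 1)) with hA1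
    set A2 := ∑ i ∈ Finset.range w.length,
      gradS w (shc 1 ζ) i * (η.2 (i + 1) - ζ.2 (i + 1)) with hA2
    set Q1 := ∑ i ∈ Finset.range (w.length + 1), (η.1 (i + 1) - ζ.1 (i + 1)) ^ 2 with hQ1
    set Q2 := ∑ i ∈ Finset.range w.length, (η.2 (i + 1) - ζ.2 (i + 1)) ^ 2 with hQ2
    have hQ1' : (η.1 1 - ζ.1 1) ^ 2 ≤ Q1 :=
      Finset.single_le_sum (f := fun i => (η.1 (i + 1) - ζ.1 (i + 1)) ^ 2)
        (fun i _ => sq_nonneg _) (Finset.mem_range.2 (Nat.succ_pos _))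
    have hQ2' : 0 ≤ Q2 := Finset.sum_nonneg fun i _ => sq_nonneg _
    have hQ1'' : 0 ≤ Q1 := Finset.sum_nonneg fun i _ => sq_nonneg _
    have h3 : (η.2 0 - ζ.2 0) * ((η.1 1 - ζ.1 1) - (η.1 0 - ζ.1 0)) ≤
        (η.2 0 - ζ.2 0) ^ 2 + ((η.1 1 - ζ.1 1) ^ 2 + (η.1 0 - ζ.1 0) ^ 2) / 2 := by
      nlinarith [sq_nonneg ((η.2 0 - ζ.2 0) - (η.1 1 - ζ.1 1)),
        sq_nonneg ((η.2 0 - ζ.2 0) + (η.1 0 - ζ.1 0))]
    have hcQ : 0 ≤ c * (Q1 + Q2) := by positivity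
    have hCq : 0 ≤ C * ((η.1 0 - ζ.1 0) ^ 2 + (η.2 0 - ζ.2 0) ^ 2) := by positivity
    have hq1 : 0 ≤ (η.1 0 - ζ.1 0) ^ 2 := sq_nonneg _
    have hq2 : 0 ≤ (η.2 0 - ζ.2 0) ^ 2 := sq_nonneg _
    nlinarith

theorem t_desc : S_desc := by
  intro b T e w _ hw
  obtain ⟨C, hC, h⟩ := gen b T e w hw
  refine ⟨C, hC, fun ζ η => ?_⟩
  have h1 := h b ζ η
  simp only [sub_self, zero_mul, zero_add, gX_b] at h1
  exact h1

end Pool.Agent.W407.DP
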